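import Mathlib

set_option autoImplicit false

namespace Pool.Agent.H.MP_613bd6_al

section ring
variable {R : Type} [Ring R]

/-- the product T_m T_(m-1) ... T_k, empty when m < k -/
def desc (T : ℕ → R) (m k : ℕ) : R := ((List.range' k (m + 1 - k)).reverse.map T).prod

theorem desc_empty (T : ℕ → R) {m k : ℕ} (h : m < k) : desc T m k = 1 := by
  simp [desc, show m + 1 - k = 0 by omega]

theorem desc_succ (T : ℕ → R) {m k : ℕ} (h : k ≤ m + 1) :
    desc T (m + 1) k = T (m + 1) * desc T m k := by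
  rw [desc, desc, show m + 1 + 1 - k = (m + 1 - k) + 1 by omega, List.range'_concat]
  simp [show k + (m + 1 - k) = m + 1 by omega]

theorem desc_right (T : ℕ → R) {m k : ℕ} (h : k ≤ m) :
    desc T m k = desc T m (k + 1) * T k := by
  rw [desc, desc, show m + 1 - k = (m + 1 - (k + 1)) + 1 by omega, List.range'_succ]
  simp

theorem desc_comm (T : ℕ → R) (x : R) (k : ℕ) (hk : 0 < k) : ∀ m : ℕ,
    (∀ j, k ≤ j → j ≤ m → x * T j = T j * x) → x * desc T m k = desc T m k * x
  | 0, _ => by rw [desc_empty T hk]; simp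
  | m + 1, h => by
    by_cases hm : k ≤ m + 1
    · rw [desc_succ T hm, ← mul_assoc, h _ hm le_rfl, mul_assoc,
        desc_comm T x k hk m fun j a b => h j a (by omega), mul_assoc]
    · rw [desc_empty T (by omega)]; simp

structure Br (n : ℕ) (T : ℕ → R) : Prop where
  comm : ∀ i j, i + 1 < j → T i * T j = T j * T i
  braid : ∀ i, 0 < i → i + 1 < n → T i * T (i + 1) * T i = T (i + 1) * T i * T (i + 1)

theorem Br.op {n : ℕ} {T : ℕ → R} (h : Br n T) : Br n fun i => MulOpposite.op (T i) where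
  comm i j hij := by rw [← MulOpposite.op_mul, ← MulOpposite.op_mul, h.comm i j hij]
  braid i h1 h2 := by
    simp only [← MulOpposite.op_mul, ← mul_assoc]
    rw [h.braid i h1 h2]

theorem desc_shift {n : ℕ} {T : ℕ → R} (h : Br n T) {k j : ℕ} (hk : 0 < k) (hj : k ≤ j) :
    ∀ m : ℕ, j < m → m < n → T j * desc T m k = desc T m k * T (j + 1)
  | 0, h1, _ => by omega
  | m + 1, h1, h2 => by
    rw [desc_succ T (by omega)]
    rcases Nat.lt_or_ge j m with h3 | h3
    · rw [← mul_assoc, h.comm j (m + 1) (by omega), mul_assoc,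
        desc_shift h hk hj m h3 (by omega), mul_assoc]
    · obtain rfl : j = m := by omega
      obtain ⟨p, rfl⟩ : ∃ p, j = p + 1 := ⟨j - 1, by omega⟩
      rw [desc_succ T hj, ← mul_assoc, ← mul_assoc, h.braid _ (by omega) h2, mul_assoc,
        desc_comm T _ k hk p fun a _ b => (h.comm a _ (by omega)).symm]
      simp only [mul_assoc]

theorem desc_desc {n : ℕ} {T : ℕ → R} (h : Br n T) {k i : ℕ} (hk : 0 < k) (hi : i < n) :
    ∀ m : ℕ, m < i → desc T m k * desc T i k = desc T i k * desc T (m + 1) (k + 1)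
  | 0, _ => by rw [desc_empty T hk, desc_empty T (show 0 + 1 < k + 1 by omega)]; simp
  | m + 1, h1 => by
    by_cases hm : k ≤ m + 1
    · rw [desc_succ T hm, mul_assoc, desc_desc h hk hi m (by omega), ← mul_assoc,
        desc_shift h hk hm i h1 hi, desc_succ T (show k + 1 ≤ m + 1 + 1 by omega), mul_assoc]
    · rw [desc_empty T (show m + 1 < k by omega), desc_empty T (show m + 1 + 1 < k + 1 by omega)]
      simp

def cnt (S : Finset ℕ) : ℕ → ℕ
  | 0 => 0
  | m + 1 => cnt S m + if m + 1 ∈ S then 1 else 0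

theorem cnt_le (S : Finset ℕ) : ∀ m, cnt S m ≤ m
  | 0 => le_rfl
  | m + 1 => by have := cnt_le S m; rw [cnt]; split_ifs <;> omega

theorem cnt_mono (S : Finset ℕ) {a b : ℕ} (h : a ≤ b) :
    cnt S a ≤ cnt S b ∧ cnt S b + a ≤ cnt S a + b := by
  induction b, h using Nat.le_induction with
  | base => simp
  | succ b _ ih => rw [cnt]; split_ifs <;> omega

theorem cnt_card (S : Finset ℕ) : ∀ m, cnt S m = (S ∩ Finset.Icc 1 m).card
  | 0 => by simp [cnt]
  | m + 1 => by
    rw [cnt, cnt_card S m, ← Finset.insert_Icc_right_eq_Icc_add_one (by omega)]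
    split_ifs with h
    · rw [Finset.inter_insert_of_mem h, Finset.card_insert_of_notMem (by simp)]
    · rw [Finset.inter_insert_of_notMem h, add_zero]

def U (T : ℕ → R) (S : Finset ℕ) : ℕ → R
  | 0 => 1
  | m + 1 => if m + 1 ∈ S then U T S m * desc T m (cnt S m + 1) else U T S m

theorem U_comm (T : ℕ → R) (S : Finset ℕ) (x : R) : ∀ m : ℕ,
    (∀ j, j < m → x * T j = T j * x) → x * U T S m = U T S m * x
  | 0, _ => by simp [U]
  | m + 1, h => by
    have ih := U_comm T S x m fun j hj => h j (by omega)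
    rw [U]
    split_ifs
    · rw [← mul_assoc, ih, mul_assoc, desc_comm T x _ (by omega) m fun j _ b => h j (by omega),
        mul_assoc]
    · exact ih

def sw (i : ℕ) (S : Finset ℕ) : Finset ℕ := S.map (Equiv.swap i (i + 1)).toEmbedding

theorem mem_sw {i j : ℕ} {S : Finset ℕ} : j ∈ sw i S ↔ Equiv.swap i (i + 1) j ∈ S := by
  simp [sw, Finset.mem_map_equiv]

theorem sw_sw (i : ℕ) (S : Finset ℕ) : sw i (sw i S) = S := by
  ext j; simp [mem_sw]

theorem mem_sw1 {i : ℕ} {S : Finset ℕ} : i ∈ sw i S ↔ i + 1 ∈ S := by simp [mem_sw]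
theorem mem_sw2 {i : ℕ} {S : Finset ℕ} : i + 1 ∈ sw i S ↔ i ∈ S := by simp [mem_sw]
theorem mem_sw3 {i j : ℕ} {S : Finset ℕ} (h1 : j ≠ i) (h2 : j ≠ i + 1) : j ∈ sw i S ↔ j ∈ S := by
  rw [mem_sw, Equiv.swap_apply_of_ne_of_ne h1 h2]

theorem sw_eq {i : ℕ} {S : Finset ℕ} (h : i ∈ S ↔ i + 1 ∈ S) : sw i S = S := by
  ext j
  by_cases h1 : j = i
  · rw [h1, mem_sw1, h]
  · by_cases h2 : j = i + 1
    · rw [h2, mem_sw2, h]
    · exact mem_sw3 h1 h2

theorem head (T : ℕ → R) (i : ℕ) (S : Finset ℕ) : ∀ m, m < i →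
    cnt (sw i S) m = cnt S m ∧ U T (sw i S) m = U T S m
  | 0, _ => ⟨rfl, rfl⟩
  | m + 1, h => by
    obtain ⟨h1, h2⟩ := head T i S m (by omega)
    simp only [cnt, U, h1, h2, mem_sw3 (show m + 1 ≠ i by omega) (show m + 1 ≠ i + 1 by omega)]
    simp

theorem cnt_sw (p : ℕ) (S : Finset ℕ) (m : ℕ) (hm : m ≠ p + 1) :
    cnt (sw (p + 1) S) m = cnt S m := by
  rcases Nat.lt_or_ge m (p + 1) with h | h
  · exact (head (fun _ => (1 : ℤ)) _ S m h).1
  · have h' : p + 2 ≤ m := by omega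
    clear hm h
    induction m, h' using Nat.le_induction with
    | base =>
      simp only [cnt, (head (fun _ => (1 : ℤ)) (p + 1) S p (by omega)).1, mem_sw1, mem_sw2]
      omega
    | succ m h ih =>
      simp only [cnt, ih, mem_sw3 (show m + 1 ≠ p + 1 by omega) (show m + 1 ≠ p + 1 + 1 by omega)]

theorem cnt_sw' (p : ℕ) (S : Finset ℕ) (h1 : p + 1 ∉ S) (h2 : p + 2 ∈ S) :
    cnt (sw (p + 1) S) (p + 1) = cnt S (p + 1) + 1 := by
  simp only [cnt, cnt_sw p S p (by omega), mem_sw1, h1, h2, if_true, if_false]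

theorem U_a {T : ℕ → R} (hc : ∀ i j, i + 1 < j → T i * T j = T j * T i) (p : ℕ) (S : Finset ℕ)
    (h1 : p + 1 ∉ S) (h2 : p + 2 ∈ S) (m : ℕ) (hm : p + 2 ≤ m) :
    U T S m = T (p + 1) * U T (sw (p + 1) S) m := by
  induction m, hm using Nat.le_induction with
  | base =>
    have := cnt_le S p
    simp only [U, cnt, h1, h2, mem_sw1, mem_sw2, if_true, if_false, add_zero,
      (head T (p + 1) S p (by omega)).1, (head T (p + 1) S p (by omega)).2]
    rw [desc_succ T (by omega), ← mul_assoc, ← mul_assoc,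
      U_comm T S (T (p + 1)) p fun j hj => (hc j _ (by omega)).symm]
  | succ m h ih =>
    simp only [U, ih, mem_sw3 (show m + 1 ≠ p + 1 by omega) (show m + 1 ≠ p + 1 + 1 by omega),
      cnt_sw p S m (by omega)]
    split_ifs
    · rw [mul_assoc]
    · rfl

theorem U_b {n : ℕ} {T : ℕ → R} (h : Br n T) (p : ℕ) (S : Finset ℕ)
    (h1 : p + 1 ∈ S) (h2 : p + 2 ∈ S) (hp : p + 1 < n) (m : ℕ) (hm : p + 2 ≤ m) :
    T (p + 1) * U T S m = U T S m * T (cnt S p + 1) := by
  induction m, hm using Nat.le_induction with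
  | base =>
    have := cnt_le S p
    simp only [U, cnt, h1, h2, if_true]
    rw [← mul_assoc, ← mul_assoc, U_comm T S (T (p + 1)) p fun j hj => (h.comm j _ (by omega)).symm,
      mul_assoc (U T S p), ← desc_succ T (by omega), mul_assoc, mul_assoc, mul_assoc,
      ← desc_right T (by omega), desc_desc h (by omega) hp p (by omega)]
  | succ m hm ih =>
    rw [U]
    split_ifs
    · have h3 : cnt S (p + 2) = cnt S p + 2 := by simp [cnt, h1, h2]
      have h4 := (cnt_mono S hm).1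
      rw [← mul_assoc, ih, mul_assoc, desc_comm T _ _ (by omega) m
        fun j a _ => h.comm _ j (by omega), mul_assoc]
    · exact ih

theorem U_c {n : ℕ} {T : ℕ → R} (h : Br n T) (p : ℕ) (S : Finset ℕ)
    (h1 : p + 1 ∉ S) (h2 : p + 2 ∉ S) (m : ℕ) (hm : p + 2 ≤ m) (hn : m ≤ n) :
    T (p + 1) * U T S m = U T S m * T (p + 1 + cnt S m - cnt S p) := by
  induction m, hm using Nat.le_induction with
  | base =>
    simp only [U, cnt, h1, h2, if_false, add_zero, Nat.add_sub_cancel]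
    exact U_comm T S (T (p + 1)) p fun j hj => (h.comm j _ (by omega)).symm
  | succ m hm ih =>
    have ih := ih (by omega)
    rw [U, cnt]
    split_ifs
    · have h3 : cnt S (p + 2) = cnt S p := by simp [cnt, h1, h2]
      have h4 := cnt_mono S hm
      have h5 := cnt_le S p
      rw [← mul_assoc, ih, mul_assoc, desc_shift h (by omega) (by omega) m (by omega) (by omega),
        mul_assoc, show p + 1 + cnt S m - cnt S p + 1 = p + 1 + (cnt S m + 1) - cnt S p by omega]
    · exact ih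

theorem U_init (T : ℕ → R) (S : Finset ℕ) (h : ∀ p, p + 2 ∈ S → p + 1 ∈ S) :
    ∀ m, U T S m = 1 ∧ (m + 1 ∈ S → cnt S m = m)
  | 0 => ⟨rfl, fun _ => rfl⟩
  | m + 1 => by
    obtain ⟨h1, h2⟩ := U_init T S h m
    refine ⟨?_, fun h3 => ?_⟩
    · rw [U]
      split_ifs with h3
      · rw [h1, h2 h3, desc_empty T (by omega), one_mul]
      · exact h1
    · rw [cnt, if_pos (h m h3), h2 (h m h3)]

def PP (n r : ℕ) : Finset (Finset ℕ) := (Finset.Icc 1 n).powerset.filter fun S => cnt S n = r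

theorem mem_PP {n r : ℕ} {S : Finset ℕ} :
    S ∈ PP n r ↔ (∀ j ∈ S, 1 ≤ j ∧ j ≤ n) ∧ cnt S n = r := by
  simp [PP, Finset.subset_iff]

theorem sw_mem {n r p : ℕ} {S : Finset ℕ} (h : S ∈ PP n r) (hp : p + 1 < n) :
    sw (p + 1) S ∈ PP n r := by
  rw [mem_PP] at h ⊢
  refine ⟨fun j hj => ?_, by rw [cnt_sw p S n (by omega), h.2]⟩
  by_cases h1 : j = p + 1
  · omega
  · by_cases h2 : j = p + 1 + 1
    · omega
    · exact h.1 j ((mem_sw3 h1 h2).1 hj)

theorem sw_sum {p : ℕ} {S : Finset ℕ} (h1 : p + 1 ∉ S) (h2 : p + 2 ∈ S) :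
    ∑ x ∈ sw (p + 1) S, x < ∑ x ∈ S, x := by
  rw [sw, Finset.sum_map]
  refine Finset.sum_lt_sum (fun x hx => ?_) ⟨p + 2, h2, by simp⟩
  by_cases h3 : x = p + 1 + 1
  · simp [h3]
  · have h4 : x ≠ p + 1 := fun h => h1 (h ▸ hx)
    simp [Equiv.swap_apply_of_ne_of_ne h4 h3]

theorem eq_of_cnt {n r : ℕ} {S S' : Finset ℕ} (h : S ∈ PP n r) (h' : S' ∈ PP n r)
    (e : ∀ m, cnt S m = cnt S' m) : S = S' := by
  ext j
  rcases j with _ | j
  · exact ⟨fun a => by have := (mem_PP.1 h).1 0 a; omega,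
      fun a => by have := (mem_PP.1 h').1 0 a; omega⟩
  · have h1 := e (j + 1)
    rw [cnt, cnt, e j] at h1
    by_cases a : j + 1 ∈ S <;> by_cases b : j + 1 ∈ S' <;> simp_all

end ring

end Pool.Agent.H.MP_613bd6_al
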