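import Pool.Agent.H.MP_613bd6_al.Mid

set_option autoImplicit false

noncomputable section

namespace Pool.Agent.H.MP_613bd6_al

variable {K : Type} [Field K] {H : Type} [Ring H] [Algebra K H]

/-- indices 1, ..., n-1 of the generators -/
abbrev G (n : ℕ) : Type := {j : ℕ // 0 < j ∧ j < n}

/-- the defining relations of the Hecke algebra -/
structure Rels {n : ℕ} (q : K) (T : G n → H) : Prop where
  braid : ∀ i j : G n, j.1 = i.1 + 1 → T i * T j * T i = T j * T i * T j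
  comm : ∀ i j : G n, i.1 + 1 < j.1 → T i * T j = T j * T i
  quad : ∀ i : G n, (T i - algebraMap K H q) * (T i + algebraMap K H q⁻¹) = 0

/-- T_j for a natural number j; the value 1 outside the range is never used below -/
def Tn {n : ℕ} (T : G n → H) (j : ℕ) : H := if h : 0 < j ∧ j < n then T ⟨j, h⟩ else 1

/-- the simple transposition s_i, exchanging the i-th and (i+1)-th points -/
def s {n : ℕ} (i : G n) : Equiv.Perm (Fin n) :=
  Equiv.swap ⟨i.1 - 1, by have := i.2; omega⟩ ⟨i.1, i.2.2⟩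

def wprod {n : ℕ} (w : List (G n)) : Equiv.Perm (Fin n) := (w.map s).prod

/-- Coxeter length -/
def len {n : ℕ} (σ : Equiv.Perm (Fin n)) : ℕ := sInf {k | ∃ w : List (G n), w.length = k ∧ wprod w = σ}

/-- reduced words -/
def Red {n : ℕ} (w : List (G n)) (σ : Equiv.Perm (Fin n)) : Prop := w.length = len σ ∧ wprod w = σ

/-- T_σ, the product along a chosen reduced word -/
def Tw {n : ℕ} (T : G n → H) (σ : Equiv.Perm (Fin n)) : H :=
  ((Classical.epsilon fun w => Red w σ).map T).prod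

open Classical in
/-- the subgroup generated by the s_i with J i, as a finite set -/
def WJ (n : ℕ) (J : ℕ → Prop) : Finset (Equiv.Perm (Fin n)) :=
  Finset.univ.filter fun σ => σ ∈ Subgroup.closure {τ | ∃ i : G n, J i.1 ∧ τ = s i}

/-- partial sums m_k -/
def ms (μ : ℕ → ℕ) (k : ℕ) : ℕ := ∑ j ∈ Finset.range k, μ j

def Jmu (N : ℕ) (μ : ℕ → ℕ) (i : ℕ) : Prop := ∀ k, 1 ≤ k → k ≤ N → i ≠ ms μ k

def eMu {n : ℕ} (q : K) (T : G n → H) (N : ℕ) (μ : ℕ → ℕ) : H :=
  (∑ σ ∈ WJ n (Jmu N μ), q ^ (2 * len σ))⁻¹ • ∑ σ ∈ WJ n (Jmu N μ), q ^ len σ • Tw T σ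

def Tgam {n : ℕ} (T : G n → H) (N : ℕ) (μ : ℕ → ℕ) : H :=
  ((List.range' 1 N).map fun k => desc (Tn T) (ms μ k) (k + 1)).prod

def Anti {n : ℕ} (q : K) (T : G n → H) (N : ℕ) : H :=
  ∑ σ ∈ WJ n (fun i => i ≤ N),
    ((-1) ^ len σ * q ^ (((N * (N + 1) / 2 : ℕ) : ℤ) - (len σ : ℤ))) • Tw T σ

def XX {n : ℕ} (q : K) (T : G n → H) (N : ℕ) (μ : ℕ → ℕ) : H :=
  eMu q T N μ * Tgam T N μ * Anti q T N * Ring.inverse (Tgam T N μ) * eMu q T N μ

end Pool.Agent.H.MP_613bd6_al
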