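import Pool.Agent.H.MP_613bd6_al.Mats

set_option autoImplicit false

noncomputable section

namespace Pool.Agent.H.MP_613bd6_al

section gen
variable {K : Type} [Field K] {R : Type} [Ring R] [Algebra K R]

theorem sum_eig {α : Type} (W : Finset α) (l : α → ℕ) (t : α → R) (f : α → α) (L : R →ₗ[K] R)
    (c z : K) (hc : c * c = 1 + z * c) (hf : ∀ a, f (f a) = a) (hW : ∀ a ∈ W, f a ∈ W)
    (h : ∀ a, (l (f a) = l a + 1 ∧ L (t a) = t (f a)) ∨
      (l (f a) + 1 = l a ∧ L (t a) = t (f a) + z • t a)) :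
    L (∑ a ∈ W, c ^ l a • t a) = c • ∑ a ∈ W, c ^ l a • t a := by
  rw [← sub_eq_zero, map_sum, Finset.smul_sum, ← Finset.sum_sub_distrib]
  have key : ∀ a, l (f a) = l a + 1 → L (c ^ l a • t a) - c • c ^ l a • t a +
      (L (c ^ l (f a) • t (f a)) - c • c ^ l (f a) • t (f a)) = 0 := by
    intro a ha
    have h1 : L (t a) = t (f a) := by
      rcases h a with h1 | h1
      · exact h1.2
      · omega
    have h2 : L (t (f a)) = t a + z • t (f a) := by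
      rcases h (f a) with h2 | h2
      · rw [hf] at h2; omega
      · rw [hf] at h2; exact h2.2
    rw [map_smul, map_smul, h1, h2, ha]
    have e : ∀ u v : R, c ^ l a • v - c • c ^ l a • u +
        (c ^ (l a + 1) • (u + z • v) - c • c ^ (l a + 1) • v) =
        (c ^ l a * (1 + z * c - c * c)) • v := by
      intro u v
      module
    rw [e, hc, sub_self, mul_zero, zero_smul]
  refine Finset.sum_involution (fun a _ => f a) (fun a _ => ?_) (fun a _ _ e => ?_)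
    hW (fun a _ => hf a)
  · rcases h a with h1 | h1
    · exact key a h1.1
    · have := key (f a) (by rw [hf]; exact h1.1.symm)
      rw [hf] at this
      rw [add_comm]; exact this
  · have := h a
    rw [e] at this
    omega

theorem desc_inv {n : ℕ} {T T' : ℕ → R} (h : ∀ j, 0 < j → j < n → T j * T' j = 1 ∧ T' j * T j = 1)
    {k : ℕ} (hk : 0 < k) : ∀ m, m < n →
      desc T m k * (desc (fun i => MulOpposite.op (T' i)) m k).unop = 1 ∧
      (desc (fun i => MulOpposite.op (T' i)) m k).unop * desc T m k = 1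
  | 0, _ => by rw [desc_empty _ hk, desc_empty _ hk]; simp
  | m + 1, hm => by
    by_cases h1 : k ≤ m + 1
    · obtain ⟨a, b⟩ := desc_inv h hk m (by omega)
      obtain ⟨a', b'⟩ := h (m + 1) (by omega) hm
      rw [desc_succ _ h1, desc_succ _ h1]
      simp only [MulOpposite.unop_mul, MulOpposite.unop_op]
      constructor
      · rw [mul_assoc, ← mul_assoc (desc T m k), a, one_mul, a']
      · rw [mul_assoc, ← mul_assoc (T' _), b', one_mul, b]
    · rw [desc_empty _ (by omega), desc_empty _ (by omega)]; simp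

theorem U_inv {n : ℕ} {T T' : ℕ → R} (h : ∀ j, 0 < j → j < n → T j * T' j = 1 ∧ T' j * T j = 1)
    (S : Finset ℕ) : ∀ m, m ≤ n → U T S m * Us T' S m = 1 ∧ Us T' S m * U T S m = 1
  | 0, _ => by simp [U, Us]
  | m + 1, hm => by
    obtain ⟨a, b⟩ := U_inv h S m (by omega)
    obtain ⟨a', b'⟩ := desc_inv h (show 0 < cnt S m + 1 by omega) m hm
    simp only [Us, U] at *
    split_ifs
    · simp only [MulOpposite.unop_mul]
      constructor
      · rw [mul_assoc, ← mul_assoc (desc T m _), a', one_mul, a]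
      · rw [mul_assoc, ← mul_assoc (MulOpposite.unop (U _ S m)), b, one_mul, b']
    · exact ⟨a, b⟩

theorem U_gap (T : ℕ → R) (S : Finset ℕ) {a b : ℕ} (hab : a ≤ b)
    (h : ∀ x, a < x → x ≤ b → x ∉ S) : U T S b = U T S a ∧ cnt S b = cnt S a := by
  induction b, hab using Nat.le_induction with
  | base => exact ⟨rfl, rfl⟩
  | succ b hb ih =>
    obtain ⟨h1, h2⟩ := ih fun x c d => h x c (by omega)
    rw [U, cnt, if_neg (h _ (by omega) le_rfl), if_neg (h _ (by omega) le_rfl)]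
    exact ⟨h1, h2⟩

end gen

variable {n : ℕ} {K : Type} [Field K] {q : K} {H : Type} [Ring H] [Algebra K H] {T : G n → H}

theorem Tn_eq (i : G n) : Tn T i.1 = T i := dif_pos i.2

theorem Tn_br (hT : Rels q T) : Br n (Tn T) where
  comm i j h := by
    unfold Tn
    split_ifs with h1 h2
    · exact hT.comm _ _ h
    all_goals simp
  braid i h1 h2 := by
    rw [Tn_eq ⟨i, h1, by omega⟩, Tn_eq ⟨i + 1, by omega, h2⟩]
    exact hT.braid _ _ rfl

theorem mem_WJ {J : ℕ → Prop} {σ : Equiv.Perm (Fin n)} :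
    σ ∈ WJ n J ↔ σ ∈ Subgroup.closure {τ | ∃ i : G n, J i.1 ∧ τ = s i} := by
  simp [WJ]

theorem WJ_ind {J : ℕ → Prop} {P : Equiv.Perm (Fin n) → Prop} (h1 : P 1)
    (h2 : ∀ (i : G n) σ, J i.1 → P σ → P (s i * σ)) {σ : Equiv.Perm (Fin n)} (h : σ ∈ WJ n J) :
    P σ := by
  rw [mem_WJ] at h
  induction h using Subgroup.closure_induction_left with
  | one => exact h1
  | mul_left x hx y _ ih => obtain ⟨i, hi, rfl⟩ := hx; exact h2 i y hi ih
  | inv_mul_cancel x hx y _ ih => obtain ⟨i, hi, rfl⟩ := hx; rw [s_inv]; exact h2 i y hi ih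

theorem len_one : len (1 : Equiv.Perm (Fin n)) = 0 := by rw [len_eq, ell_one]

theorem Tw_one (hT : Rels q T) : Tw T (1 : Equiv.Perm (Fin n)) = 1 :=
  Tw_eq hT (w := []) ⟨len_one.symm, rfl⟩

def EE (T : G n → H) (J : ℕ → Prop) (c : K) : H := ∑ σ ∈ WJ n J, c ^ len σ • Tw T σ

theorem EE_left (hT : Rels q T) (hq0 : q ≠ 0) {J : ℕ → Prop} {c : K} (hc : c * c = 1 + (q - q⁻¹) * c) (i : G n) (hi : J i.1) :
    T i * EE T J c = c • EE T J c :=
  sum_eig (WJ n J) len (Tw T) (fun σ => s i * σ) (LinearMap.mulLeft K (T i)) c _ hc (s_ss i)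
    (fun _ h => mem_WJ.2 (mul_mem (Subgroup.subset_closure ⟨i, hi, rfl⟩) (mem_WJ.1 h)))
    (left_rule hT hq0 i)

theorem EE_right (hT : Rels q T) (hq0 : q ≠ 0) {J : ℕ → Prop} {c : K} (hc : c * c = 1 + (q - q⁻¹) * c) (i : G n)
    (hi : J i.1) : EE T J c * T i = c • EE T J c :=
  sum_eig (WJ n J) len (Tw T) (fun σ => σ * s i) (LinearMap.mulRight K (T i)) c _ hc
    (fun σ => by rw [mul_assoc, s_s, mul_one])
    (fun _ h => mem_WJ.2 (mul_mem (mem_WJ.1 h) (Subgroup.subset_closure ⟨i, hi, rfl⟩)))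
    (right_rule hT hq0 i)

theorem EE_comm (hT : Rels q T) (hq0 : q ≠ 0) {J : ℕ → Prop} (c : K) (x : H)
    (hx : ∀ i : G n, J i.1 → x * T i = T i * x) : x * EE T J c = EE T J c * x := by
  rw [EE, Finset.mul_sum, Finset.sum_mul]
  refine Finset.sum_congr rfl fun σ hσ => ?_
  rw [mul_smul_comm, smul_mul_assoc]
  congr 1
  refine WJ_ind (P := fun σ => x * Tw T σ = Tw T σ * x) (by simp [Tw_one hT]) (fun i σ hi ih => ?_) hσ
  have k : x * (T i * Tw T σ) = T i * Tw T σ * x := by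
    rw [← mul_assoc, hx i hi, mul_assoc, ih, mul_assoc]
  rcases left_rule hT hq0 i σ with ⟨-, h⟩ | ⟨-, h⟩
  · rw [← h, k]
  · rw [← sub_eq_iff_eq_add.2 h, mul_sub, sub_mul, k, mul_smul_comm, smul_mul_assoc, ih]

theorem Tw_mul (hT : Rels q T) (hq0 : q ≠ 0) {J : ℕ → Prop} (x : H) (hx : ∀ i : G n, J i.1 → ∃ a : K, T i * x = a • x)
    {σ : Equiv.Perm (Fin n)} (hσ : σ ∈ WJ n J) : ∃ a : K, Tw T σ * x = a • x := by
  refine WJ_ind (P := fun σ => ∃ a : K, Tw T σ * x = a • x) ⟨1, by simp [Tw_one hT]⟩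
    (fun i σ hi ⟨a, ih⟩ => ?_) hσ
  obtain ⟨b, hb⟩ := hx i hi
  have k : T i * Tw T σ * x = (a * b) • x := by rw [mul_assoc, ih, mul_smul_comm, hb, smul_smul]
  rcases left_rule hT hq0 i σ with ⟨-, h⟩ | ⟨-, h⟩
  · exact ⟨_, by rw [← h, k]⟩
  · refine ⟨a * b - (q - q⁻¹) * a, ?_⟩
    rw [← sub_eq_iff_eq_add.2 h, sub_mul, k, smul_mul_assoc, ih, smul_smul]
    exact (sub_smul _ _ _).symm

theorem EE_sq (hT : Rels q T) (hq0 : q ≠ 0) {J : ℕ → Prop} {c : K} (hc : c * c = 1 + (q - q⁻¹) * c) :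
    ∃ a : K, EE T J c * EE T J c = a • EE T J c := by
  have h := fun σ (hσ : σ ∈ WJ n J) => Tw_mul hT hq0 (EE T J c) (fun i hi => ⟨c, EE_left hT hq0 hc i hi⟩) hσ
  choose! f hf using h
  refine ⟨∑ σ ∈ WJ n J, c ^ len σ * f σ, ?_⟩
  rw [Finset.sum_smul]
  conv_lhs => enter [1]; rw [EE]
  rw [Finset.sum_mul]
  exact Finset.sum_congr rfl fun σ hσ => by rw [smul_mul_assoc, hf σ hσ, smul_smul]

theorem hc1 (hq0 : q ≠ 0) : q * q = 1 + (q - q⁻¹) * q := by
  field_simp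
  ring

theorem hc2 (hq0 : q ≠ 0) : (-q⁻¹) * (-q⁻¹) = 1 + (q - q⁻¹) * (-q⁻¹) := by
  field_simp
  ring

theorem hq_sum {α : Type} (P : Finset α) (f : α → ℕ) (h : P.Nonempty) :
    ∑ S ∈ P, (RatFunc.X : RatFunc ℂ) ^ f S ≠ 0 := by
  have e : ∑ S ∈ P, (RatFunc.X : RatFunc ℂ) ^ f S =
      algebraMap (Polynomial ℂ) (RatFunc ℂ) (∑ S ∈ P, Polynomial.X ^ f S) := by
    simp [map_sum]
  rw [e]
  intro h0
  have h1 := congrArg (Polynomial.eval 1) ((map_eq_zero_iff _ (RatFunc.algebraMap_injective ℂ)).1 h0)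
  simp only [Polynomial.eval_finset_sum, Polynomial.eval_pow, Polynomial.eval_X, one_pow,
    Finset.sum_const, nsmul_eq_mul, mul_one, Polynomial.eval_zero, Nat.cast_eq_zero,
    Finset.card_eq_zero] at h1
  exact h.ne_empty h1

theorem hqc (hq : ∀ (P : Finset (Finset ℕ)) (f : Finset ℕ → ℕ), P.Nonempty → ∑ S ∈ P, q ^ f S ≠ 0) :
    q ≠ 0 ∧ q ≠ -q⁻¹ := by
  have h2 : q ≠ 0 := by simpa using hq {∅} (fun _ => 1) (by simp)
  refine ⟨h2, fun h => ?_⟩
  have := hq {∅, {0, 1}} Finset.card (by simp)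
  apply this
  rw [Finset.sum_pair (by decide)]
  simp only [Finset.card_empty, pow_zero, show ({0, 1} : Finset ℕ).card = 2 from rfl]
  field_simp at h
  linear_combination h

theorem Anti_eq (hq0 : q ≠ 0) (N : ℕ) : Anti q T N = q ^ ((N * (N + 1) / 2 : ℕ) : ℤ) • EE T (fun i => i ≤ N) (-q⁻¹) := by
  rw [Anti, EE, Finset.smul_sum]
  refine Finset.sum_congr rfl fun σ _ => ?_
  rw [smul_smul, zpow_sub₀ hq0, neg_pow q⁻¹, zpow_natCast q (len σ), inv_pow]
  congr 1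
  ring

theorem central_of (hg : Algebra.adjoin K (Set.range T) = ⊤) (Z : H)
    (h : ∀ i : G n, T i * Z = Z * T i) (x : H) : x * Z = Z * x := by
  have hx : x ∈ Algebra.adjoin K (Set.range T) := hg ▸ Algebra.mem_top
  induction hx using Algebra.adjoin_induction with
  | mem y hy => obtain ⟨i, rfl⟩ := hy; exact h i
  | algebraMap r => exact Algebra.commutes _ _
  | mul a b _ _ ha hb => rw [mul_assoc, hb, ← mul_assoc, ha, mul_assoc]
  | add a b _ _ ha hb => rw [add_mul, mul_add, ha, hb]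

theorem dat (hT : Rels q T) (hq0 : q ≠ 0) (N : ℕ) (hN : N < n) (J : ℕ → Prop) (κ : K) :
    Dat n N (fun i => (0 < i ∧ i < n) ∧ J i) q (q - q⁻¹) (-q⁻¹) (Tn T) (Anti q T N)
      (κ • EE T J q) where
  br := Tn_br hT
  quad i a b := by rw [Tn_eq ⟨i, a, b⟩]; exact T_quad hT hq0 _
  a1 k a b := by
    rw [Tn_eq ⟨k, a, by omega⟩, Anti_eq hq0, mul_smul_comm, EE_left hT hq0 (hc2 hq0) _ b, smul_comm]
  a2 k a b := by
    rw [Tn_eq ⟨k, a, by omega⟩, Anti_eq hq0, smul_mul_assoc, EE_right hT hq0 (hc2 hq0) _ b, smul_comm]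
  a3 j a := by
    rw [Anti_eq hq0, mul_smul_comm, smul_mul_assoc, EE_comm hT hq0]
    intro i hi
    rw [← Tn_eq (T := T) i]
    exact ((Tn_br hT).comm _ _ (by omega)).symm
  e1 i a := by rw [Tn_eq ⟨i, a.1⟩, mul_smul_comm, EE_left hT hq0 (hc1 hq0) _ a.2, smul_comm]
  e2 i a := by rw [Tn_eq ⟨i, a.1⟩, smul_mul_assoc, EE_right hT hq0 (hc1 hq0) _ a.2, smul_comm]

def S0 (N : ℕ) (μ : ℕ → ℕ) : Finset ℕ := (Finset.range (N + 1)).image fun k => ms μ k + 1

theorem ms_succ (μ : ℕ → ℕ) (k : ℕ) : ms μ (k + 1) = ms μ k + μ k := Finset.sum_range_succ _ _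

theorem ms_mono (μ : ℕ → ℕ) {a b : ℕ} (h : a ≤ b) : ms μ a ≤ ms μ b :=
  Finset.sum_le_sum_of_subset (Finset.range_mono h)

theorem ms_lt {N : ℕ} {μ : ℕ → ℕ} (hμ : ∀ k, k ≤ N → 0 < μ k) {a b : ℕ} (h : a < b) (ha : a ≤ N) :
    ms μ a < ms μ b := by
  have := ms_mono μ (show a + 1 ≤ b from h)
  have := ms_succ μ a
  have := hμ a ha
  omega

theorem mem_S0 {N : ℕ} {μ : ℕ → ℕ} {x : ℕ} : x ∈ S0 N μ ↔ ∃ k, k ≤ N ∧ ms μ k + 1 = x := by
  simp [S0, Nat.lt_succ_iff]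

theorem U_S0 {R : Type} [Ring R] (T : ℕ → R) {N : ℕ} {μ : ℕ → ℕ} (hμ : ∀ k, k ≤ N → 0 < μ k) :
    ∀ k, k ≤ N → U T (S0 N μ) (ms μ (k + 1)) =
      ((List.range' 1 k).map fun k => desc T (ms μ k) (k + 1)).prod ∧
      cnt (S0 N μ) (ms μ (k + 1)) = k + 1 := by
  have gap : ∀ k, k ≤ N → U T (S0 N μ) (ms μ (k + 1)) = U T (S0 N μ) (ms μ k + 1) ∧
      cnt (S0 N μ) (ms μ (k + 1)) = cnt (S0 N μ) (ms μ k + 1) := fun k hk =>
    U_gap T _ (ms_lt hμ (Nat.lt_succ_self k) hk) fun x a b hx => by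
      obtain ⟨j, hj, rfl⟩ := mem_S0.1 hx
      rcases Nat.lt_or_ge k j with h | h
      · have := ms_mono μ (show k + 1 ≤ j from h); omega
      · have := ms_mono μ h; omega
  intro k
  induction k with
  | zero =>
    intro h
    have m : ms μ 0 + 1 ∈ S0 N μ := mem_S0.2 ⟨0, h, rfl⟩
    rw [(gap 0 h).1, (gap 0 h).2, U, cnt, if_pos m, if_pos m]
    simp [ms, U, cnt, desc]
  | succ k ih =>
    intro h
    obtain ⟨h1, h2⟩ := ih (by omega)
    have m : ms μ (k + 1) + 1 ∈ S0 N μ := mem_S0.2 ⟨_, h, rfl⟩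
    rw [(gap _ h).1, (gap _ h).2, U, cnt, if_pos m, if_pos m, h1, h2, List.range'_concat]
    simp [add_comm 1 k]

theorem main
    (hq : ∀ (P : Finset (Finset ℕ)) (f : Finset ℕ → ℕ), P.Nonempty → ∑ S ∈ P, q ^ f S ≠ 0) (N : ℕ)
    (μ : ℕ → ℕ) (hμ : ∀ k, k ≤ N → 0 < μ k) {T : G (ms μ (N + 1)) → H} (hT : Rels q T)
    (hg : Algebra.adjoin K (Set.range T) = ⊤) (a : H) :
    XX q T N μ * (eMu q T N μ * a * eMu q T N μ) = eMu q T N μ * a * eMu q T N μ * XX q T N μ := by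
  have hq0 := (hqc hq).1
  have hS := U_S0 (Tn T) hμ N le_rfl
  have hN : N < ms μ (N + 1) := by have := cnt_le (S0 N μ) (ms μ (N + 1)); omega
  have hS0 : S0 N μ ∈ PP (ms μ (N + 1)) (N + 1) := mem_PP.2 ⟨fun j hj => by
    obtain ⟨k, hk, rfl⟩ := mem_S0.1 hj
    have := ms_lt hμ (show k < N + 1 by omega) hk
    omega, hS.2⟩
  have D := dat hT hq0 N hN (Jmu N μ) (∑ σ ∈ WJ (ms μ (N + 1)) (Jmu N μ), q ^ (2 * len σ))⁻¹
  have card : ∀ S ∈ PP (ms μ (N + 1)) (N + 1), S.card = N + 1 := fun S h => by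
    rw [← (mem_PP.1 h).2, cnt_card, Finset.inter_eq_left.2]
    exact fun x hx => Finset.mem_Icc.2 ((mem_PP.1 h).1 x hx)
  obtain ⟨κ, hκ, hZ⟩ := D.main (fun i h => h.1) (hqc hq).2 hS0 (fun S h h' => by
    refine Finset.eq_of_subset_of_card_le (fun x hx => ?_) (by rw [card _ h, card _ hS0])
    have h1 := (mem_PP.1 h).1 x hx
    obtain ⟨i, rfl⟩ : ∃ i, x = i + 1 := ⟨x - 1, by omega⟩
    rcases Nat.eq_zero_or_pos i with rfl | hi
    · exact mem_S0.2 ⟨0, by omega, rfl⟩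
    · by_contra h2
      exact h' i ⟨⟨hi, by omega⟩, fun k _ b e => h2 (mem_S0.2 ⟨k, b, by rw [e]⟩)⟩ hx) hq
  have hG : Tgam T N μ = U (Tn T) (S0 N μ) (ms μ (N + 1)) := hS.1.symm
  have hI := U_inv (n := ms μ (N + 1)) (T := Tn T)
    (T' := fun i => Tn T i - algebraMap K _ (q - q⁻¹)) (fun j a b => by
      have := D.quad j a b
      constructor
      · rw [mul_sub, this, ← Algebra.commutes, ← Algebra.smul_def, add_sub_cancel_right]
      · rw [sub_mul, this, ← Algebra.smul_def, add_sub_cancel_right]) (S0 N μ) _ le_rfl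
  have hinv : Ring.inverse (Tgam T N μ) = Us (fun i => Tn T i -
      algebraMap K _ (q - q⁻¹)) (S0 N μ) (ms μ (N + 1)) := by
    rw [hG]
    exact Ring.inverse_unit ⟨_, _, hI.1, hI.2⟩
  have hZ' : eMu q T N μ * ZZ (ms μ (N + 1)) N (Tn T) (Anti q T N) * eMu q T N μ = κ • XX q T N μ := by
    rw [XX, hinv, hG]; exact hZ
  have cen := central_of hg (ZZ (ms μ (N + 1)) N (Tn T) (Anti q T N)) fun i => by
    obtain ⟨i, h1, h2⟩ := i
    obtain ⟨p, rfl⟩ : ∃ p, i = p + 1 := ⟨i - 1, by omega⟩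
    rw [← Tn_eq (T := T)]
    exact D.central p h2
  obtain ⟨l, hl⟩ : ∃ l : K, eMu q T N μ * eMu q T N μ = l • eMu q T N μ := by
    obtain ⟨b, hb⟩ := EE_sq hT hq0 (J := Jmu N μ) (hc1 hq0)
    refine ⟨(∑ σ ∈ WJ (ms μ (N + 1)) (Jmu N μ), q ^ (2 * len σ))⁻¹ * b, ?_⟩
    change (_ • EE T _ _) * (_ • EE T _ _) = _ • _ • EE T _ _
    rw [smul_mul_assoc, mul_smul_comm, hb, smul_smul, smul_smul, smul_smul]
    congr 1
    ring
  apply smul_right_injective _ hκ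
  simp only
  rw [← smul_mul_assoc, ← mul_smul_comm, ← hZ']
  generalize ZZ (ms μ (N + 1)) N (Tn T) (Anti q T N) = Z at cen
  generalize eMu q T N μ = e at hl
  have k1 : e * Z * e * (e * a * e) = Z * (e * e * e * a * e) := by
    rw [cen e]; simp only [mul_assoc]
  have k2 : e * a * e * (e * Z * e) = Z * (e * a * (e * e * e)) := by
    rw [← cen, mul_assoc e Z e, ← cen e]; simp only [mul_assoc]
  rw [k1, k2, hl, smul_mul_assoc, hl]
  simp only [smul_mul_assoc, mul_smul_comm]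

theorem tgam_unit (hq0 : q ≠ 0) (N : ℕ) (μ : ℕ → ℕ) (hμ : ∀ k, k ≤ N → 0 < μ k)
    {T : G (ms μ (N + 1)) → H} (hT : Rels q T) :
    IsUnit (Tgam T N μ) := by
  have hG : Tgam T N μ = U (Tn T) (S0 N μ) (ms μ (N + 1)) :=
    (U_S0 (Tn T) hμ N le_rfl).1.symm
  have hI := U_inv (n := ms μ (N + 1)) (T := Tn T)
    (T' := fun i => Tn T i - algebraMap K _ (q - q⁻¹)) (fun j a b => by
      have : Tn T j * Tn T j =
          1 + (q - q⁻¹) • Tn T j := by
        rw [Tn_eq ⟨j, a, b⟩]; exact T_quad hT hq0 _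
      constructor
      · rw [mul_sub, this, ← Algebra.commutes, ← Algebra.smul_def, add_sub_cancel_right]
      · rw [sub_mul, this, ← Algebra.smul_def, add_sub_cancel_right]) (S0 N μ) _ le_rfl
  rw [hG]
  exact ⟨⟨_, _, hI.1, hI.2⟩, rfl⟩

end Pool.Agent.H.MP_613bd6_al
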