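import Pool.Agent.H.MP_613bd6_al.Defs

set_option autoImplicit false

noncomputable section

namespace Pool.Agent.H.MP_613bd6_al

variable {n : ℕ} {K : Type} [Field K] {q : K} {H : Type} [Ring H] [Algebra K H] {T : G n → H}

def pa (i : G n) : Fin n := ⟨i.1 - 1, by have := i.2; omega⟩
def pb (i : G n) : Fin n := ⟨i.1, i.2.2⟩

theorem s_val (i : G n) (x : Fin n) :
    (s i x).1 = if x.1 = i.1 - 1 then i.1 else if x.1 = i.1 then i.1 - 1 else x.1 := by
  unfold s
  rw [Equiv.swap_apply_def]
  simp only [Fin.ext_iff]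
  split_ifs <;> rfl

theorem s_s (i : G n) : s i * s i = 1 := Equiv.swap_mul_self _ _

theorem s_inv (i : G n) : (s i)⁻¹ = s i := Equiv.swap_inv _ _

theorem s_ss (i : G n) (σ : Equiv.Perm (Fin n)) : s i * (s i * σ) = σ := by
  rw [← mul_assoc, s_s, one_mul]

theorem s_apply2 (i : G n) (x : Fin n) : s i (s i x) = x := Equiv.swap_apply_self _ _ _

theorem s_comm {i j : G n} (h : i.1 + 1 < j.1) : s i * s j = s j * s i := by
  ext x
  have := i.2
  simp only [Equiv.Perm.mul_apply, s_val]
  split_ifs <;> omega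

theorem s_braid {i j : G n} (h : j.1 = i.1 + 1) : s i * s j * s i = s j * s i * s j := by
  ext x
  have := i.2
  simp only [Equiv.Perm.mul_apply, s_val]
  split_ifs <;> omega

theorem s_lt (i : G n) {x y : Fin n} (h : x < y) (h' : ¬ (x = pa i ∧ y = pb i)) :
    s i x < s i y := by
  have := i.2
  simp only [Fin.ext_iff, pa, pb, Fin.lt_def, s_val] at *
  split_ifs <;> omega

def II (τ : Equiv.Perm (Fin n)) : Finset (Fin n × Fin n) :=
  Finset.univ.filter fun p => p.1 < p.2 ∧ τ p.2 < τ p.1

theorem s_pa (i : G n) : s i (pa i) = pb i := Equiv.swap_apply_left _ _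
theorem s_pb (i : G n) : s i (pb i) = pa i := Equiv.swap_apply_right _ _
theorem pa_lt (i : G n) : pa i < pb i := by have := i.2; simp only [pa, pb, Fin.lt_def]; omega

theorem II_mul (τ : Equiv.Perm (Fin n)) (i : G n) (h : τ (pa i) < τ (pb i)) :
    (II (τ * s i)).card = (II τ).card + 1 := by
  have : II (τ * s i) = insert (pa i, pb i) ((II τ).map ((s i).prodCongr (s i)).toEmbedding) := by
    ext ⟨x, y⟩
    simp only [II, Finset.mem_filter, Finset.mem_univ, true_and, Equiv.Perm.mul_apply,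
      Finset.mem_insert, Prod.mk.injEq, Finset.mem_map_equiv, Equiv.prodCongr_symm,
      Equiv.prodCongr_apply, Prod.map]
    rw [show (s i).symm = s i from s_inv i]
    constructor
    · rintro ⟨h1, h2⟩
      by_cases h3 : x = pa i ∧ y = pb i
      · exact .inl h3
      · exact .inr ⟨s_lt i h1 h3, h2⟩
    · rintro (⟨rfl, rfl⟩ | ⟨h1, h2⟩)
      · rw [s_pa, s_pb]; exact ⟨pa_lt i, h⟩
      · refine ⟨?_, h2⟩
        have := s_lt i h1 (by rintro ⟨a, b⟩; rw [a, b] at h2; exact lt_asymm h h2)
        rwa [s_apply2, s_apply2] at this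
  rw [this, Finset.card_insert_of_notMem, Finset.card_map]
  simp only [II, Finset.mem_map_equiv, Finset.mem_filter, Finset.mem_univ, true_and,
    Equiv.prodCongr_symm, Equiv.prodCongr_apply, Prod.map]
  rw [show (s i).symm = s i from s_inv i, s_pa, s_pb]
  exact fun h => lt_asymm h.1 (pa_lt i)

def ell (σ : Equiv.Perm (Fin n)) : ℕ := (II σ⁻¹).card

def Dn (i : G n) (σ : Equiv.Perm (Fin n)) : Prop := σ⁻¹ (pb i) < σ⁻¹ (pa i)

theorem ell_asc {i : G n} {σ : Equiv.Perm (Fin n)} (h : ¬ Dn i σ) : ell (s i * σ) = ell σ + 1 := by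
  rw [ell, mul_inv_rev, s_inv, II_mul, ell]
  exact lt_of_le_of_ne (not_lt.1 h) fun e => (pa_lt i).ne (σ⁻¹.injective e)

theorem inv_s (i : G n) (σ : Equiv.Perm (Fin n)) (x : Fin n) : (s i * σ)⁻¹ x = σ⁻¹ (s i x) := by
  rw [mul_inv_rev, s_inv]; rfl

theorem ell_desc {i : G n} {σ : Equiv.Perm (Fin n)} (h : Dn i σ) : ell (s i * σ) + 1 = ell σ := by
  rw [← ell_asc (i := i), s_ss]
  rw [Dn, inv_s, inv_s, s_pa, s_pb]
  exact lt_asymm h

theorem wprod_cons (i : G n) (w : List (G n)) : wprod (i :: w) = s i * wprod w := by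
  simp [wprod]

theorem ell_one : ell (1 : Equiv.Perm (Fin n)) = 0 := by
  simp only [ell, II, inv_one, Equiv.Perm.one_apply, Finset.card_eq_zero,
    Finset.filter_eq_empty_iff]
  exact fun p _ h => lt_asymm h.1 h.2

theorem ell_le (w : List (G n)) : ell (wprod w) ≤ w.length := by
  induction w with
  | nil => exact ell_one.le
  | cons i w ih =>
    rw [wprod_cons, List.length_cons]
    by_cases h : Dn i (wprod w)
    · have := ell_desc h; omega
    · have := ell_asc h; omega

theorem eq_one_of (σ : Equiv.Perm (Fin n)) (h : ∀ i, ¬ Dn i σ) : σ = 1 := by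
  have hm : StrictMono (σ⁻¹ : Equiv.Perm (Fin n)) := by
    rcases n with _ | n
    · intro a; exact a.elim0
    · rw [Fin.strictMono_iff_lt_succ]
      intro j
      have := h ⟨j.1 + 1, by omega, by omega⟩
      exact lt_of_le_of_ne (not_lt.1 this) fun e => (Fin.castSucc_lt_succ (i := j)).ne
        (σ⁻¹.injective e)
  rw [← inv_eq_one]
  ext x
  rw [le_antisymm (hm.le_id x) (hm.id_le x)]; rfl

theorem exists_word : ∀ (k : ℕ) (σ : Equiv.Perm (Fin n)), ell σ = k →
    ∃ w : List (G n), w.length = k ∧ wprod w = σ := by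
  intro k
  induction k with
  | zero =>
    intro σ h
    refine ⟨[], rfl, (eq_one_of σ fun i hi => ?_).symm⟩
    have := ell_desc hi; omega
  | succ k ih =>
    intro σ h
    by_cases h1 : ∀ i, ¬ Dn i σ
    · rw [eq_one_of σ h1, ell_one] at h; omega
    · push Not at h1
      obtain ⟨i, hi⟩ := h1
      obtain ⟨w, h2, h3⟩ := ih (s i * σ) (by have := ell_desc hi; omega)
      exact ⟨i :: w, by simp [h2], by rw [wprod_cons, h3, s_ss]⟩

theorem len_eq (σ : Equiv.Perm (Fin n)) : len σ = ell σ := by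
  apply le_antisymm
  · exact Nat.sInf_le (exists_word _ σ rfl)
  · obtain ⟨w, h1, h2⟩ := Nat.sInf_mem (s := {k | ∃ w : List (G n), w.length = k ∧ wprod w = σ})
      ⟨_, exists_word _ σ rfl⟩
    rw [len, ← h1, ← h2]; exact ell_le w

theorem T_quad (hT : Rels q T) (hq0 : q ≠ 0) (i : G n) : T i * T i = 1 + (q - q⁻¹) • T i := by
  have := hT.quad i
  simp only [Algebra.algebraMap_eq_smul_one, sub_mul, mul_add, mul_smul_comm, smul_mul_assoc,
    mul_one, one_mul, smul_smul, smul_sub, inv_mul_cancel₀ hq0, one_smul] at this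
  rw [sub_smul, ← sub_eq_zero, ← this]
  abel

def tp (T : G n → H) (w : List (G n)) : H := (w.map T).prod

theorem tp_cons (i : G n) (w : List (G n)) : tp T (i :: w) = T i * tp T w := by simp [tp]

theorem red_tail {i : G n} {u : List (G n)} {σ : Equiv.Perm (Fin n)}
    (h : (i :: u).length = ell σ) (h' : wprod (i :: u) = σ) :
    Dn i σ ∧ wprod u = s i * σ := by
  have e : wprod u = s i * σ := by rw [← h', wprod_cons, s_ss]
  refine ⟨by_contra fun hd => ?_, e⟩
  have h1 := ell_asc hd
  have h2 := ell_le u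
  rw [e] at h2
  simp at h
  omega

theorem mats (hT : Rels q T) : ∀ (k : ℕ) (σ : Equiv.Perm (Fin n)), ell σ = k → ∀ w w' : List (G n),
    w.length = k → wprod w = σ → w'.length = k → wprod w' = σ → tp T w = tp T w' := by
  intro k
  induction k with
  | zero =>
    intro σ _ w w' h1 _ h2 _
    rw [List.length_eq_zero_iff.1 h1, List.length_eq_zero_iff.1 h2]
  | succ k ih =>
    intro σ hk
    have key : ∀ (i j : G n) (u v : List (G n)), i.1 ≤ j.1 → (i :: u).length = k + 1 →
        wprod (i :: u) = σ → (j :: v).length = k + 1 → wprod (j :: v) = σ →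
        tp T (i :: u) = tp T (j :: v) := by
      intro i j u v hij h1 h2 h3 h4
      obtain ⟨d1, e1⟩ := red_tail (h1.trans hk.symm) h2
      obtain ⟨d2, e2⟩ := red_tail (h3.trans hk.symm) h4
      have l1 := ell_desc d1
      have l2 := ell_desc d2
      simp only [List.length_cons, Nat.add_right_cancel_iff] at h1 h3
      rw [tp_cons, tp_cons]
      have hi := i.2
      rcases Nat.lt_trichotomy (i.1 + 1) j.1 with h | h | h
      · have d3 : Dn j (s i * σ) := by
          rw [Dn, inv_s, inv_s,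
            show s i (pb j) = pb j from Fin.ext (by rw [s_val]; simp only [pb]; split_ifs <;> omega),
            show s i (pa j) = pa j from Fin.ext (by rw [s_val]; simp only [pa]; split_ifs <;> omega)]
          exact d2
        have l3 := ell_desc d3
        obtain ⟨r, r1, r2⟩ := exists_word _ (s j * (s i * σ)) rfl
        rw [ih _ (by omega) u (j :: r) h1 e1 (by simp; omega) (by rw [wprod_cons, r2, s_ss]),
          ih _ (by omega) v (i :: r) h3 e2 (by simp; omega) (by
            rw [wprod_cons, r2, ← mul_assoc, s_comm h, mul_assoc, s_ss]),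
          tp_cons, tp_cons, ← mul_assoc, ← mul_assoc, hT.comm _ _ h]
      · have q1 : pa j = pb i := Fin.ext (by simp only [pa, pb]; omega)
        have q2 : s i (pb j) = pb j :=
          Fin.ext (by rw [s_val]; simp only [pb]; split_ifs <;> omega)
        have q3 : s j (pa i) = pa i :=
          Fin.ext (by rw [s_val]; simp only [pa]; split_ifs <;> omega)
        have d3 : Dn j (s i * σ) := by
          rw [Dn, inv_s, inv_s, q2, q1, s_pb]
          rw [Dn, q1] at d2
          exact d2.trans d1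
        have l3 := ell_desc d3
        have d4 : Dn i (s j * (s i * σ)) := by
          rw [Dn, inv_s, inv_s, inv_s, inv_s, q3, s_pa, ← q1, s_pa, q2]
          exact d2
        have l4 := ell_desc d4
        obtain ⟨r, r1, r2⟩ := exists_word _ (s i * (s j * (s i * σ))) rfl
        rw [ih _ (by omega) u (j :: i :: r) h1 e1 (by simp; omega)
            (by rw [wprod_cons, wprod_cons, r2, s_ss, s_ss]),
          ih _ (by omega) v (i :: j :: r) h3 e2 (by simp; omega) (by
            rw [wprod_cons, wprod_cons, r2, ← mul_assoc, ← mul_assoc, s_braid h.symm, mul_assoc,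
              s_ss, mul_assoc, s_ss]),
          tp_cons, tp_cons, tp_cons, tp_cons]
        simp only [← mul_assoc]
        rw [hT.braid _ _ h.symm]
      · obtain rfl : i = j := Subtype.ext (by omega)
        rw [ih _ (by omega) u v h1 e1 h3 e2]
    intro w w' h1 h2 h3 h4
    rcases w with _ | ⟨i, u⟩
    · simp at h1
    rcases w' with _ | ⟨j, v⟩
    · simp at h3
    rcases le_total i.1 j.1 with h | h
    · exact key i j u v h h1 h2 h3 h4
    · exact (key j i v u h h3 h4 h1 h2).symm

theorem exists_red (σ : Equiv.Perm (Fin n)) : ∃ w, Red w σ := by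
  obtain ⟨w, h1, h2⟩ := exists_word _ σ rfl
  exact ⟨w, h1.trans (len_eq σ).symm, h2⟩

theorem Tw_eq (hT : Rels q T) {σ : Equiv.Perm (Fin n)} {w : List (G n)} (h : Red w σ) : Tw T σ = tp T w := by
  have := Classical.epsilon_spec (exists_red σ)
  exact mats hT _ σ rfl _ _ (this.1.trans (len_eq σ)) this.2 (h.1.trans (len_eq σ)) h.2

theorem len_inv (σ : Equiv.Perm (Fin n)) : len σ⁻¹ = len σ := by
  have key : ∀ τ : Equiv.Perm (Fin n), len τ⁻¹ ≤ len τ := fun τ => by
    obtain ⟨w, h1, h2⟩ := exists_red τ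
    refine Nat.sInf_le ⟨w.reverse, by rw [List.length_reverse, h1], ?_⟩
    rw [← h2, wprod, wprod, List.prod_inv_reverse, List.map_reverse, List.map_map]
    congr 2
  exact le_antisymm (key σ) (by simpa using key σ⁻¹)

theorem left_rule (hT : Rels q T) (hq0 : q ≠ 0) (i : G n) (σ : Equiv.Perm (Fin n)) :
    (len (s i * σ) = len σ + 1 ∧ T i * Tw T σ = Tw T (s i * σ)) ∨
    (len (s i * σ) + 1 = len σ ∧ T i * Tw T σ = Tw T (s i * σ) + (q - q⁻¹) • Tw T σ) := by
  have key : ∀ τ : Equiv.Perm (Fin n), len (s i * τ) = len τ + 1 → T i * Tw T τ = Tw T (s i * τ) := by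
    intro τ h
    obtain ⟨w, hw⟩ := exists_red τ
    rw [Tw_eq hT hw, Tw_eq hT (w := i :: w) ⟨by simp [h, hw.1], by rw [wprod_cons, hw.2]⟩, tp_cons]
  by_cases h : Dn i σ
  · have l : len (s i * σ) + 1 = len σ := by rw [len_eq, len_eq, ell_desc h]
    refine .inr ⟨l, ?_⟩
    have := key (s i * σ) (by rw [s_ss, l])
    rw [s_ss] at this
    rw [← this, ← mul_assoc, T_quad hT hq0]
    simp [add_mul]
  · have l : len (s i * σ) = len σ + 1 := by rw [len_eq, len_eq, ell_asc h]
    exact .inl ⟨l, key σ l⟩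

theorem right_rule (hT : Rels q T) (hq0 : q ≠ 0) (i : G n) (σ : Equiv.Perm (Fin n)) :
    (len (σ * s i) = len σ + 1 ∧ Tw T σ * T i = Tw T (σ * s i)) ∨
    (len (σ * s i) + 1 = len σ ∧ Tw T σ * T i = Tw T (σ * s i) + (q - q⁻¹) • Tw T σ) := by
  have key : ∀ τ : Equiv.Perm (Fin n), len (τ * s i) = len τ + 1 → Tw T τ * T i = Tw T (τ * s i) := by
    intro τ h
    obtain ⟨w, hw⟩ := exists_red τ
    rw [Tw_eq hT hw, Tw_eq hT (w := w ++ [i]) ⟨by simp [h, hw.1], by rw [← hw.2]; simp [wprod]⟩]
    simp [tp]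
  have l0 : len (σ * s i) = len (s i * σ⁻¹) := by rw [← len_inv, mul_inv_rev, s_inv]
  have ss : σ * s i * s i = σ := by rw [mul_assoc, s_s, mul_one]
  rcases left_rule hT hq0 i σ⁻¹ with ⟨l, -⟩ | ⟨l, -⟩
  · rw [← l0, len_inv] at l
    exact .inl ⟨l, key σ l⟩
  · rw [← l0, len_inv] at l
    refine .inr ⟨l, ?_⟩
    have := key (σ * s i) (by rw [ss, l])
    rw [ss] at this
    rw [← this, mul_assoc, T_quad hT hq0]
    simp [mul_add]

end Pool.Agent.H.MP_613bd6_al
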