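import Pool.Agent.H.MP_613bd6_al.Core

set_option autoImplicit false

namespace Pool.Agent.H.MP_613bd6_al

variable {K : Type} [Field K] {R : Type} [Ring R] [Algebra K R]

structure Dat (n N : ℕ) (J : ℕ → Prop) (q z c : K) (T : ℕ → R) (A e : R) : Prop where
  br : Br n T
  quad : ∀ i, 0 < i → i < n → T i * T i = 1 + z • T i
  a1 : ∀ k, 0 < k → k ≤ N → T k * A = c • A
  a2 : ∀ k, 0 < k → k ≤ N → A * T k = c • A
  a3 : ∀ j, N + 1 < j → T j * A = A * T j
  e1 : ∀ i, J i → T i * e = q • e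
  e2 : ∀ i, J i → e * T i = q • e

open MulOpposite in
theorem Dat.op {n N : ℕ} {J : ℕ → Prop} {q z c : K} {T : ℕ → R} {A e : R}
    (h : Dat n N J q z c T A e) : Dat n N J q z c (fun i => op (T i)) (op A) (op e) where
  br := h.br.op
  quad i a b := by rw [← op_mul, h.quad i a b]; simp
  a1 k a b := by rw [← op_mul, h.a2 k a b]; simp
  a2 k a b := by rw [← op_mul, h.a1 k a b]; simp
  a3 j a := by rw [← op_mul, ← op_mul, h.a3 j a]
  e1 i a := by rw [← op_mul, h.e2 i a]; simp
  e2 i a := by rw [← op_mul, h.e1 i a]; simp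

/-- the reversed product -/
def Us (T : ℕ → R) (S : Finset ℕ) (m : ℕ) : R :=
  (U (fun i => MulOpposite.op (T i)) S m).unop

theorem Us_of {T : ℕ → R} {S : Finset ℕ} {m : ℕ} {i k : ℕ}
    (h : MulOpposite.op (T i) * U (fun i => MulOpposite.op (T i)) S m =
      U (fun i => MulOpposite.op (T i)) S m * MulOpposite.op (T k)) :
    Us T S m * T i = T k * Us T S m := by
  have := congrArg MulOpposite.unop h
  simpa [Us] using this

section
variable {n N : ℕ} {J : ℕ → Prop} {q z c : K} {T : ℕ → R} {A e : R}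

theorem kb {p : ℕ} {S : Finset ℕ} (hS : S ∈ PP n (N + 1)) (h1 : p + 1 ∈ S) (h2 : p + 2 ∈ S) :
    cnt S p + 1 ≤ N := by
  have h3 : cnt S (p + 2) = cnt S p + 2 := by simp [cnt, h1, h2]
  have h4 := (cnt_mono S ((mem_PP.1 hS).1 _ h2).2).1
  have := (mem_PP.1 hS).2
  omega

theorem kc {p : ℕ} {S : Finset ℕ} (hS : S ∈ PP n (N + 1)) :
    N + 1 < p + 1 + cnt S n - cnt S p := by
  have := (mem_PP.1 hS).2
  have := cnt_le S p
  omega

def ZZ (n N : ℕ) (T : ℕ → R) (A : R) : R := ∑ S ∈ PP n (N + 1), U T S n * A * Us T S n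

theorem Dat.central (h : Dat n N J q z c T A e) (p : ℕ) (hp : p + 1 < n) :
    T (p + 1) * ZZ n N T A = ZZ n N T A * T (p + 1) := by
  rw [← sub_eq_zero, ZZ, Finset.mul_sum, Finset.sum_mul, ← Finset.sum_sub_distrib]
  have same : ∀ S ∈ PP n (N + 1), (p + 1 ∈ S ↔ p + 2 ∈ S) →
      T (p + 1) * (U T S n * A * Us T S n) - U T S n * A * Us T S n * T (p + 1) = 0 := by
    intro S hS hi
    have key : ∃ k, T (p + 1) * U T S n = U T S n * T k ∧ Us T S n * T (p + 1) = T k * Us T S n ∧
        T k * A = A * T k := by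
      by_cases h1 : p + 1 ∈ S
      · refine ⟨_, U_b h.br p S h1 (hi.1 h1) hp n hp, Us_of (U_b h.br.op p S h1 (hi.1 h1) hp n hp), ?_⟩
        rw [h.a1 _ (by omega) (kb hS h1 (hi.1 h1)), h.a2 _ (by omega) (kb hS h1 (hi.1 h1))]
      · exact ⟨_, U_c h.br p S h1 (mt hi.2 h1) n hp le_rfl,
          Us_of (U_c h.br.op p S h1 (mt hi.2 h1) n hp le_rfl), h.a3 _ (kc hS)⟩
    obtain ⟨k, k1, k2, k3⟩ := key
    rw [← mul_assoc, ← mul_assoc, k1, mul_assoc _ _ A, k3, mul_assoc _ _ (T (p + 1)), k2]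
    simp only [mul_assoc, sub_self]
  have diff : ∀ S : Finset ℕ, p + 1 ∉ S → p + 2 ∈ S →
      T (p + 1) * (U T S n * A * Us T S n) - U T S n * A * Us T S n * T (p + 1) +
      (T (p + 1) * (U T (sw (p + 1) S) n * A * Us T (sw (p + 1) S) n) -
        U T (sw (p + 1) S) n * A * Us T (sw (p + 1) S) n * T (p + 1)) = 0 := by
    intro S h1 h2
    have k1 := U_a h.br.comm p S h1 h2 n hp
    have k2 : Us T S n = Us T (sw (p + 1) S) n * T (p + 1) := by
      have := congrArg MulOpposite.unop (U_a h.br.op.comm p S h1 h2 n hp)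
      simpa [Us] using this
    rw [k1, k2]
    have hq := h.quad (p + 1) (by omega) hp
    set Y := U T (sw (p + 1) S) n * A * Us T (sw (p + 1) S) n with hY
    set t := T (p + 1)
    have e1 : t * U T (sw (p + 1) S) n * A * (Us T (sw (p + 1) S) n * t) = t * Y * t := by
      simp only [hY, mul_assoc]
    rw [e1]
    have e2 : t * (t * Y * t) = Y * t + z • (t * Y * t) := by
      rw [← mul_assoc, ← mul_assoc, hq]; simp [add_mul]
    have e3 : t * Y * t * t = t * Y + z • (t * Y * t) := by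
      rw [mul_assoc _ t t, hq]; simp [mul_add]
    rw [e2, e3]; abel
  refine Finset.sum_involution (fun S _ => sw (p + 1) S) (fun S hS => ?_) (fun S hS hne hs => ?_)
    (fun S hS => sw_mem hS hp) (fun S _ => sw_sw _ _)
  · by_cases hi : p + 1 ∈ S ↔ p + 2 ∈ S
    · rw [sw_eq hi, same S hS hi, add_zero]
    · by_cases h1 : p + 1 ∈ S
      · have h2 : p + 2 ∉ S := fun h2 => hi ⟨fun _ => h2, fun _ => h1⟩
        have := diff (sw (p + 1) S) (by rwa [mem_sw1]) (by rwa [mem_sw2])
        rw [sw_sw] at this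
        rw [add_comm]; exact this
      · exact diff S h1 (by tauto)
  · exact hne (same S hS (by rw [← mem_sw1 (i := p + 1) (S := S), hs]))

inductive Low (J : ℕ → Prop) (S0 : Finset ℕ) : ℕ → Finset ℕ → Prop
  | base : Low J S0 0 S0
  | step (j p : ℕ) (S : Finset ℕ) : J (p + 1) → p + 1 ∉ S → p + 2 ∈ S →
      Low J S0 j (sw (p + 1) S) → Low J S0 (j + 1) S

theorem Dat.low_eq (h : Dat n N J q z c T A e) (hJ : ∀ i, J i → i < n) {S0 S : Finset ℕ} {j : ℕ}
    (hl : Low J S0 j S) : e * U T S n = q ^ j • (e * U T S0 n) := by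
  induction hl with
  | base => simp
  | step j p S h0 h1 h2 _ ih =>
    rw [U_a h.br.comm p S h1 h2 n (hJ _ h0), ← mul_assoc, h.e2 _ h0, smul_mul_assoc, ih, smul_smul,
      pow_succ']

theorem low_cnt {S0 S : Finset ℕ} {j : ℕ} (hl : Low J S0 j S) : ∀ m, cnt S m ≤ cnt S0 m := by
  induction hl with
  | base => simp
  | step j p S h0 h1 h2 _ ih =>
    intro m
    refine le_trans ?_ (ih m)
    by_cases hm : m = p + 1
    · rw [hm, cnt_sw' p S h1 h2]; omega
    · rw [cnt_sw p S m hm]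

theorem Dat.dich (h : Dat n N J q z c T A e) (hJ : ∀ i, J i → 0 < i ∧ i < n) (hqc : q ≠ c)
    {S0 : Finset ℕ} (h0 : ∀ S ∈ PP n (N + 1), (∀ i, J i → i + 1 ∉ S) → S = S0) :
    ∀ (k : ℕ) (S : Finset ℕ), ∑ x ∈ S, x = k → S ∈ PP n (N + 1) →
      (∃ j, Low J S0 j S) ∨ e * U T S n * A = 0 := by
  intro k
  induction k using Nat.strong_induction_on with
  | _ k ih =>
  intro S hk hS
  by_cases h1 : ∀ i, J i → i + 1 ∉ S
  · exact .inl ⟨0, h0 S hS h1 ▸ Low.base⟩
  · push Not at h1
    obtain ⟨i, hi, h2⟩ := h1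
    obtain ⟨p, rfl⟩ : ∃ p, i = p + 1 := ⟨i - 1, by have := hJ i hi; omega⟩
    have hp := (hJ _ hi).2
    by_cases h1 : p + 1 ∈ S
    · right
      have e1 : q • (e * U T S n * A) = c • (e * U T S n * A) := by
        rw [← smul_mul_assoc, ← smul_mul_assoc, ← h.e2 _ hi, mul_assoc e,
          U_b h.br p S h1 h2 hp n hp, mul_assoc, mul_assoc,
          h.a1 _ (by omega) (kb hS h1 h2)]
        simp [mul_assoc]
      rw [← sub_eq_zero, ← sub_smul] at e1
      exact (smul_eq_zero.1 e1).resolve_left (sub_ne_zero.2 hqc)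
    · rcases ih _ (hk ▸ sw_sum h1 h2) _ rfl (sw_mem hS hp) with ⟨j, hj⟩ | h3
      · exact .inl ⟨_, Low.step j p S hi h1 h2 hj⟩
      · right
        rw [U_a h.br.comm p S h1 h2 n hp, ← mul_assoc, h.e2 _ hi, smul_mul_assoc, smul_mul_assoc,
          h3, smul_zero]

def MM (n N : ℕ) (T : ℕ → R) (A : R) (S : Finset ℕ) : AddSubgroup R :=
  AddSubgroup.closure {x | ∃ S' ∈ PP n (N + 1), (∀ m, cnt S m ≤ cnt S' m) ∧ S' ≠ S ∧
    ∃ y, x = U T S' n * A * y}

theorem MM_gen {S S' : Finset ℕ} (h1 : S' ∈ PP n (N + 1)) (h2 : ∀ m, cnt S m ≤ cnt S' m)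
    (h3 : S' ≠ S) (y : R) : U T S' n * A * y ∈ MM n N T A S :=
  AddSubgroup.subset_closure ⟨S', h1, h2, h3, y, rfl⟩

theorem Dat.gale (h : Dat n N J q z c T A e) :
    ∀ (k : ℕ) (S : Finset ℕ), ∑ x ∈ S, x = k → S ∈ PP n (N + 1) →
      U (fun i => T i - algebraMap K R z) S n * A - U T S n * A ∈ MM n N T A S := by
  intro k
  induction k using Nat.strong_induction_on with
  | _ k ih =>
  intro S hk hS
  by_cases h1 : ∀ p, p + 2 ∈ S → p + 1 ∈ S
  · rw [(U_init _ S h1 n).1, (U_init _ S h1 n).1, sub_self]; exact zero_mem _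
  · push Not at h1
    obtain ⟨p, h2, h1⟩ := h1
    have hp : p + 1 < n := ((mem_PP.1 hS).1 _ h2).2
    have hS1 := sw_mem hS hp
    have ih1 := ih _ (hk ▸ sw_sum h1 h2) _ rfl hS1
    have hc : ∀ i j, i + 1 < j → (T i - algebraMap K R z) * (T j - algebraMap K R z) =
        (T j - algebraMap K R z) * (T i - algebraMap K R z) := by
      intro i j hij
      simp only [mul_sub, sub_mul, h.br.comm i j hij, Algebra.commutes z (T i),
        Algebra.commutes z (T j)]
      abel
    have c1 := cnt_sw' p S h1 h2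
    have c2 : ∀ m, cnt S m ≤ cnt (sw (p + 1) S) m := fun m => by
      by_cases hm : m = p + 1
      · rw [hm, c1]; omega
      · rw [cnt_sw p S m hm]
    have gen : ∀ S' ∈ PP n (N + 1), (∀ m, cnt (sw (p + 1) S) m ≤ cnt S' m) → ∀ y,
        U T S' n * A * y ∈ MM n N T A S := fun S' a b y =>
      MM_gen a (fun m => (c2 m).trans (b m)) (by rintro rfl; have := b (p + 1); omega) y
    have step : ∀ x ∈ MM n N T A (sw (p + 1) S),
        (T (p + 1) - algebraMap K R z) * x ∈ MM n N T A S := by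
      intro x hx
      induction hx using AddSubgroup.closure_induction with
      | zero => rw [mul_zero]; exact zero_mem _
      | add x y _ _ a b => rw [mul_add]; exact add_mem a b
      | neg x _ a => rw [mul_neg]; exact neg_mem a
      | mem x hx =>
        obtain ⟨S', a, b, d, y, rfl⟩ := hx
        rw [sub_mul]
        refine sub_mem ?_ (by
          rw [← Algebra.smul_def, ← mul_smul_comm]; exact gen S' a b _)
        by_cases g1 : p + 1 ∈ S' <;> by_cases g2 : p + 2 ∈ S'
        · rw [← mul_assoc, ← mul_assoc, U_b h.br p S' g1 g2 hp n hp, mul_assoc _ _ A,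
            h.a1 _ (by omega) (kb a g1 g2), mul_smul_comm, smul_mul_assoc, ← mul_smul_comm]
          exact gen S' a b _
        · have g3 : p + 1 ∉ sw (p + 1) S' := by rwa [mem_sw1]
          have g4 : p + 2 ∈ sw (p + 1) S' := by rwa [mem_sw2]
          have k1 := U_a h.br.comm p _ g3 g4 n hp
          have k2 := cnt_sw' p _ g3 g4
          rw [sw_sw] at k1 k2
          rw [← mul_assoc, ← mul_assoc, ← k1]
          refine MM_gen (sw_mem a hp) (fun m => ?_) (fun e => d ?_) y
          · by_cases hm : m = p + 1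
            · have := b (p + 1); rw [hm]; omega
            · rw [cnt_sw p S' m hm, ← cnt_sw p S m hm]; exact b m
          · rw [← e, sw_sw]
        · have k1 := U_a h.br.comm p _ g1 g2 n hp
          have k2 := cnt_sw' p _ g1 g2
          have k3 : T (p + 1) * U T S' n = U T (sw (p + 1) S') n + z • U T S' n := by
            rw [k1, ← mul_assoc, h.quad _ (by omega) hp]; simp [add_mul]
          rw [← mul_assoc, ← mul_assoc, k3, add_mul, add_mul, smul_mul_assoc, smul_mul_assoc,
            ← mul_smul_comm]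
          refine add_mem (gen _ (sw_mem a hp) (fun m => (b m).trans ?_) y) (gen S' a b _)
          by_cases hm : m = p + 1
          · rw [hm]; omega
          · rw [cnt_sw p S' m hm]
        · rw [← mul_assoc, ← mul_assoc, U_c h.br p S' g1 g2 n hp le_rfl, mul_assoc _ _ A,
            h.a3 _ (kc a), ← mul_assoc, mul_assoc _ _ y]
          exact gen S' a b _
    have fin := sub_mem (step _ ih1) (gen _ hS1 (fun _ => le_rfl) (algebraMap K R z))
    rw [U_a hc p S h1 h2 n hp, U_a h.br.comm p S h1 h2 n hp]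
    have e1 : U T (sw (p + 1) S) n * A * algebraMap K R z =
      algebraMap K R z * (U T (sw (p + 1) S) n * A) := (Algebra.commutes _ _).symm
    rw [e1] at fin
    have e2 : ∀ t w a b : R, (t - w) * (a * A - b * A) - w * (b * A) =
        (t - w) * a * A - t * b * A := by intros; noncomm_ring
    rwa [e2] at fin

theorem Dat.inv_eq (h : Dat n N J q z c T A e) (hJ : ∀ i, J i → 0 < i ∧ i < n) (hqc : q ≠ c)
    {S0 : Finset ℕ} (hS0 : S0 ∈ PP n (N + 1))
    (h0 : ∀ S ∈ PP n (N + 1), (∀ i, J i → i + 1 ∉ S) → S = S0) :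
    e * U (fun i => T i - algebraMap K R z) S0 n * A = e * U T S0 n * A := by
  have key : ∀ x ∈ MM n N T A S0, e * x = 0 := by
    intro x hx
    induction hx using AddSubgroup.closure_induction with
    | zero => rw [mul_zero]
    | add x y _ _ a b => rw [mul_add, a, b, add_zero]
    | neg x _ a => rw [mul_neg, a, neg_zero]
    | mem x hx =>
      obtain ⟨S', a, b, d, y, rfl⟩ := hx
      rcases h.dich hJ hqc h0 _ S' rfl a with ⟨j, hj⟩ | h3
      · exact absurd (eq_of_cnt a hS0 fun m => le_antisymm (low_cnt hj m) (b m)) d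
      · rw [← mul_assoc, ← mul_assoc, h3, zero_mul]
  have := key _ (h.gale _ S0 rfl hS0)
  rwa [mul_sub, sub_eq_zero, ← mul_assoc, ← mul_assoc] at this

theorem Dat.main (h : Dat n N J q z c T A e) (hJ : ∀ i, J i → 0 < i ∧ i < n) (hqc : q ≠ c)
    {S0 : Finset ℕ} (hS0 : S0 ∈ PP n (N + 1))
    (h0 : ∀ S ∈ PP n (N + 1), (∀ i, J i → i + 1 ∉ S) → S = S0)
    (hq : ∀ (P : Finset (Finset ℕ)) (f : Finset ℕ → ℕ), P.Nonempty → ∑ S ∈ P, q ^ f S ≠ 0) :
    ∃ κ : K, κ ≠ 0 ∧ e * ZZ n N T A * e =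
      κ • (e * U T S0 n * A * Us (fun i => T i - algebraMap K R z) S0 n * e) := by
  classical
  have e1 : A * Us (fun i => T i - algebraMap K R z) S0 n * e = A * Us T S0 n * e := by
    have := congrArg MulOpposite.unop (h.op.inv_eq hJ hqc hS0 h0)
    simp only [MulOpposite.unop_mul, MulOpposite.unop_op] at this
    simp only [Us, mul_assoc]
    exact this
  have e2 : e * U T S0 n * A * Us (fun i => T i - algebraMap K R z) S0 n * e =
      e * U T S0 n * A * (Us T S0 n * e) := by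
    simp only [mul_assoc] at e1 ⊢
    rw [e1]
  let f : Finset ℕ → ℕ := fun S => if hS : ∃ j, Low J S0 j S then hS.choose + hS.choose else 0
  refine ⟨∑ S ∈ (PP n (N + 1)).filter fun S => ∃ j, Low J S0 j S, q ^ f S,
    hq _ _ ⟨S0, Finset.mem_filter.2 ⟨hS0, 0, Low.base⟩⟩, ?_⟩
  rw [e2, ZZ, Finset.mul_sum, Finset.sum_mul, Finset.sum_filter, Finset.sum_smul]
  refine Finset.sum_congr rfl fun S hS => ?_
  split_ifs with hl
  · have k1 := h.low_eq (fun i a => (hJ i a).2) hl.choose_spec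
    have k2 : Us T S n * e = q ^ hl.choose • (Us T S0 n * e) := by
      have := congrArg MulOpposite.unop (h.op.low_eq (fun i a => (hJ i a).2) hl.choose_spec)
      simpa [Us] using this
    rw [← mul_assoc, ← mul_assoc, mul_assoc _ _ e, k1, k2]
    simp only [f, dif_pos hl, smul_mul_assoc, mul_smul_comm, smul_smul, pow_add]
  · rw [← mul_assoc, ← mul_assoc, (h.dich hJ hqc h0 _ S rfl hS).resolve_left hl]
    simp

end

end Pool.Agent.H.MP_613bd6_al
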